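import Pool.Agent.Q51.ZC.Stm2

/-! Project ZC (helper51): job EPR (helper299). -/

set_option autoImplicit false

namespace Pool.Agent.Q299.ZC

open Polynomial NumberField IsDedekindDomain Finset
open Pool.Agent.Q51.ZC Pool.Agent.Q51.SE

/-- `D y ^ m` is not of norm `1` if `l` divides `D` exactly once and `m ≥ 2` -/
theorem norm_ne_one {l : ℕ} [hl : Fact l.Prime] {D : ℤ} (h1 : (l : ℤ) ∣ D) (h2 : ¬ (l : ℤ) ^ 2 ∣ D) {m : ℕ}
    (hm : 2 ≤ m) (y : ℚ_[l]) : ‖(D : ℚ_[l]) * y ^ m‖ ≠ 1 := by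
  intro h
  have hy : y ≠ 0 := by
    rintro rfl
    rw [zero_pow (by omega), mul_zero, norm_zero] at h
    exact zero_ne_one h
  have hD : (D : ℚ_[l]) ≠ 0 := by
    intro h3
    rw [h3, zero_mul, norm_zero] at h
    exact zero_ne_one h
  have hDn : ‖(D : ℚ_[l])‖ = (l : ℝ) ^ (-1 : ℤ) := by
    apply le_antisymm
    · have := (Padic.norm_int_le_pow_iff_dvd (p := l) D 1).2 (by simpa using h1)
      exact_mod_cast this
    · by_contra hlt
      push Not at hlt
      apply h2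
      have hv := Padic.norm_eq_zpow_neg_valuation (p := l) hD
      rw [hv] at hlt
      have hlt2 : -(D : ℚ_[l]).valuation < -1 := (zpow_lt_zpow_iff_right₀ (by exact_mod_cast hl.out.one_lt)).1 hlt
      have h3 : ‖(D : ℚ_[l])‖ ≤ (l : ℝ) ^ (-(2 : ℕ) : ℤ) := by
        rw [hv]
        refine (zpow_le_zpow_iff_right₀ (by exact_mod_cast hl.out.one_lt)).2 ?_
        push_cast
        omega
      have := (Padic.norm_int_le_pow_iff_dvd (p := l) D 2).1 h3
      exact_mod_cast this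
  rw [norm_mul, norm_pow, hDn, Padic.norm_eq_zpow_neg_valuation hy, ← zpow_natCast, ← zpow_mul, ← zpow_add₀
    (by exact_mod_cast hl.out.ne_zero), ← zpow_zero (l : ℝ)] at h
  have h3 : (-1 : ℤ) + -y.valuation * (m : ℤ) = 0 :=
    zpow_right_injective₀ (by exact_mod_cast hl.out.pos) (by exact_mod_cast hl.out.one_lt.ne') h
  have h4 : (m : ℤ) ∣ 1 := ⟨-y.valuation, by linarith⟩
  have h5 := Int.le_of_dvd one_pos h4
  omega

theorem hom_smul (f : ℤ[X]) {F : Type} [Field F] (c x w : F) :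
    hom f (c * x) (c * w) = c ^ f.natDegree * hom f x w := by
  unfold hom
  rw [mul_sum]
  refine sum_congr rfl fun i hi => ?_
  rw [mem_range] at hi
  rw [mul_pow, mul_pow]
  have : c ^ f.natDegree = c ^ i * c ^ (f.natDegree - i) := by rw [← pow_add]; congr 1; omega
  rw [this]
  ring

/-- scaling of a point -/
theorem scale {f : ℤ[X]} {m : ℕ} {D : ℤ} {F : Type} [Field F] (P : Point f m D F) (hm : m ∣ f.natDegree)
    (c : F) : ∃ y : F, (D : F) * y ^ m = hom f (P.x / c) (P.w / c) := by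
  obtain ⟨s, hs⟩ := hm
  refine ⟨P.y * c⁻¹ ^ s, ?_⟩
  rw [div_eq_mul_inv, div_eq_mul_inv, mul_comm P.x, mul_comm P.w, hom_smul, ← P.eq, mul_pow, ← pow_mul,
    mul_comm s m, ← hs]
  ring

theorem hom_coe {l : ℕ} [Fact l.Prime] (f : ℤ[X]) (x w : ℤ_[l]) :
    ((hom f x w : ℤ_[l]) : ℚ_[l]) = hom f (x : ℚ_[l]) (w : ℚ_[l]) := by
  unfold hom
  have h : ∀ z : ℤ_[l], (z : ℚ_[l]) = PadicInt.Coe.ringHom z := fun z => rfl
  rw [h, map_sum]
  refine sum_congr rfl fun i _ => ?_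
  rw [map_mul, map_mul, map_pow, map_pow, map_intCast]
  rfl

theorem zmod_zero {l : ℕ} [Fact l.Prime] {z : ℤ_[l]} (h : ‖z‖ < 1) : PadicInt.toZMod z = 0 := by
  rw [← RingHom.mem_ker, PadicInt.ker_toZMod, IsLocalRing.mem_maximalIdeal]
  exact PadicInt.mem_nonunits.2 h

theorem epr : S_EPR := by
  intro f m D l hl hm hmn hlc hD1 hD2 ⟨P⟩
  have hlt : ‖P.w‖ < ‖P.x‖ → False := by
    intro h
    have hx : P.x ≠ 0 := by
      intro h0
      rw [h0, norm_zero] at h
      exact absurd h (not_lt.2 (norm_nonneg _))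
    obtain ⟨y, hy⟩ := scale P hmn P.x
    have ht : ‖P.w / P.x‖ < 1 := by
      rw [norm_div, div_lt_one (norm_pos_iff.2 hx)]
      exact h
    set t : ℤ_[l] := ⟨P.w / P.x, ht.le⟩ with htdef
    rw [div_self hx] at hy
    have h1 : hom f (1 : ℚ_[l]) (P.w / P.x) = ((hom f (1 : ℤ_[l]) t : ℤ_[l]) : ℚ_[l]) := by
      rw [hom_coe]
      rfl
    rw [h1] at hy
    apply norm_ne_one hD1 hD2 hm y
    rw [hy, ← PadicInt.norm_def]
    -- the value is congruent to the leading coefficient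
    have ht0 : PadicInt.toZMod t = 0 := zmod_zero ht
    have h2 : PadicInt.toZMod (hom f (1 : ℤ_[l]) t) = (f.leadingCoeff : ZMod l) := by
      unfold hom
      rw [map_sum, sum_range_succ, sum_eq_zero]
      · rw [zero_add, map_mul, map_mul, map_pow, map_pow, map_one, one_pow, Nat.sub_self, pow_zero, mul_one,
          mul_one, map_intCast]
        rfl
      · intro i hi
        rw [mem_range] at hi
        rw [map_mul, map_pow, ht0, zero_pow (by omega), mul_zero]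
    by_contra hne
    have h3 : PadicInt.toZMod (hom f (1 : ℤ_[l]) t) = 0 :=
      zmod_zero (lt_of_le_of_ne (PadicInt.norm_le_one _) hne)
    rw [h2] at h3
    exact hlc ((ZMod.intCast_zmod_eq_zero_iff_dvd _ _).1 h3)
  have hle : ‖P.x‖ ≤ ‖P.w‖ := not_lt.1 hlt
  have hw : P.w ≠ 0 := by
    intro h0
    rw [h0, norm_zero] at hle
    rcases P.ne with h | h
    · exact h (norm_eq_zero.1 (le_antisymm hle (norm_nonneg _)))
    · exact h h0
  obtain ⟨y, hy⟩ := scale P hmn P.w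
  have hs : ‖P.x / P.w‖ ≤ 1 := by
    rw [norm_div, div_le_one (norm_pos_iff.2 hw)]
    exact hle
  set s : ℤ_[l] := ⟨P.x / P.w, hs⟩ with hsdef
  rw [div_self hw] at hy
  have h1 : hom f (P.x / P.w) (1 : ℚ_[l]) = ((hom f s (1 : ℤ_[l]) : ℤ_[l]) : ℚ_[l]) := by
    rw [hom_coe]
    rfl
  rw [h1] at hy
  have h2 : ‖hom f s (1 : ℤ_[l])‖ ≠ 1 := by
    rw [PadicInt.norm_def, ← hy]
    exact norm_ne_one hD1 hD2 hm y
  have h3 : PadicInt.toZMod (hom f s (1 : ℤ_[l])) = 0 :=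
    zmod_zero (lt_of_le_of_ne (PadicInt.norm_le_one _) h2)
  refine ⟨((PadicInt.toZMod s).val : ℤ), ?_⟩
  rw [← ZMod.intCast_zmod_eq_zero_iff_dvd, ← h3]
  unfold hom
  rw [eval_eq_sum_range, map_sum]
  push_cast
  refine sum_congr rfl fun i _ => ?_
  rw [map_mul, map_mul, map_pow, one_pow, map_one, mul_one, map_intCast, ZMod.natCast_zmod_val]

end Pool.Agent.Q299.ZC
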