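import Pool.Agent.Q51.ZC.Stm2
import Pool.Agent.Q239.EL.ROOT

/-! Project ZC (helper51): job N1R (helper299). After `Pool/Agent/Q239/EL/ROOT.lean` (helper239). -/

set_option autoImplicit false

namespace Pool.Agent.Q299.ZC

open Polynomial NumberField IsDedekindDomain
open Pool.Agent.Q51.EL
open Pool.Agent.Q239.EL

theorem n1r : Pool.Agent.Q51.ZC.S_N1R := by
  classical
  intro f L _ _ θ hs
  obtain ⟨U, V, m, hm0, hUV⟩ := bezout hs.irr
  have ha0 := lead_ne hs
  refine ⟨f.leadingCoeff.natAbs * m.natAbs, mul_ne_zero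
    (Int.natAbs_ne_zero.mpr ha0) (Int.natAbs_ne_zero.mpr hm0), ?_⟩
  intro l hl hlB ⟨r0, hf0⟩
  have : Fact l.Prime := ⟨hl⟩
  have ha : ¬ (l : ℤ) ∣ f.leadingCoeff := fun h => hlB
    (Dvd.dvd.mul_right (Int.natCast_dvd.mp h) _)
  have hm : ¬ (l : ℤ) ∣ m := fun h => hlB
    (Dvd.dvd.mul_left (Int.natCast_dvd.mp h) _)
  obtain ⟨r, hr1, hr2, hr3⟩ := pick_r hUV hl hm hf0
  -- the element `a r - a θ`
  have hint : IsIntegral ℤ (f.leadingCoeff • θ) := isIntegral_leadingCoeff_smul f θ hs.root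
  let t : 𝓞 L := ⟨f.leadingCoeff • θ, hint⟩
  have ht : (t : L) = (f.leadingCoeff : L) * θ := by
    change f.leadingCoeff • θ = _
    rw [zsmul_eq_mul]
  set β : 𝓞 L := ((f.leadingCoeff * r : ℤ) : 𝓞 L) - t with hβ
  have hβL : (β : L) = (f.leadingCoeff : L) * ((r : L) - θ) := by
    have e : (β : L) = (((f.leadingCoeff * r : ℤ) : 𝓞 L) : L) - (t : L) :=
      map_sub (algebraMap (𝓞 L) L) _ _
    rw [e, ht, int_coe]
    push_cast
    ring
  have haQ : (f.leadingCoeff : ℚ) ≠ 0 := by exact_mod_cast ha0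
  have hNβ : (f.leadingCoeff : ℚ) * Algebra.norm ℚ (β : L) =
      (f.leadingCoeff : ℚ) ^ Module.finrank ℚ L * (f.eval r : ℤ) := by
    have h1 : Algebra.norm ℚ (f.leadingCoeff : L) =
        (f.leadingCoeff : ℚ) ^ Module.finrank ℚ L := by
      have := Algebra.norm_algebraMap (S := L) (f.leadingCoeff : ℚ)
      rwa [map_intCast] at this
    rw [hβL, map_mul, h1, ← norm_theta hs r]
    ring
  have hfr0 : f.eval r ≠ 0 := by
    intro h
    rw [h] at hr3
    exact hr3 (dvd_zero _)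
  have hfrQ : ((f.eval r : ℤ) : ℚ) ≠ 0 := by exact_mod_cast hfr0
  have hNβ0 : Algebra.norm ℚ (β : L) ≠ 0 := by
    intro h
    rw [h, mul_zero] at hNβ
    exact mul_ne_zero (pow_ne_zero _ haQ) hfrQ hNβ.symm
  have hβ0 : β ≠ 0 := by
    intro h
    apply hNβ0
    rw [h]
    simp
  have hva : padicValRat l (f.leadingCoeff : ℚ) = 0 := by
    rw [padicValRat.of_int]
    exact_mod_cast padicValInt.eq_zero_of_not_dvd ha
  have hvf : padicValRat l ((f.eval r : ℤ) : ℚ) = 1 := by
    obtain ⟨z, hz⟩ := hr2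
    have hz0 : z ≠ 0 := by
      rintro rfl
      rw [mul_zero] at hz
      exact hfr0 hz
    have hzl : ¬ (l : ℤ) ∣ z := by
      intro h
      apply hr3
      rw [hz, sq]
      exact mul_dvd_mul_left _ h
    rw [hz]
    push_cast
    rw [padicValRat.mul (by exact_mod_cast hl.ne_zero) (by exact_mod_cast hz0)]
    have h1 : padicValRat l (l : ℚ) = 1 := padicValRat.self hl.one_lt
    have h2 : padicValRat l (z : ℚ) = 0 := by
      rw [padicValRat.of_int]
      exact_mod_cast padicValInt.eq_zero_of_not_dvd hzl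
    rw [h1, h2, add_zero]
  have hph : ph l (Ideal.span {β}) = 1 := by
    have h1 := congrArg (padicValRat l) hNβ
    rw [padicValRat.mul haQ hNβ0, padicValRat.mul (pow_ne_zero _ haQ) hfrQ, padicValRat.pow,
      hva, hvf, norm_int_val] at h1
    simp only [mul_zero, zero_add] at h1
    exact_mod_cast h1
  have hform := ph_formula (l := l) (Ideal.span {β}) (span_ne hβ0)
  rw [hph] at hform
  obtain ⟨v, hv, hne⟩ : ∃ v ∈ (ab_finite (L := L) hl.ne_zero).toFinset,
      mu v (Ideal.span {β}) * ph l v.asIdeal ≠ 0 := by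
    by_contra hcon
    push Not at hcon
    rw [Finset.sum_eq_zero hcon] at hform
    exact one_ne_zero hform
  have hle : mu v (Ideal.span {β}) * ph l v.asIdeal ≤ 1 := by
    rw [hform]
    exact Finset.single_le_sum (f := fun v => mu v (Ideal.span {β}) * ph l v.asIdeal)
      (fun _ _ => Nat.zero_le _) hv
  have hvl : Abv v l := (ab_finite (L := L) hl.ne_zero).mem_toFinset.1 hv
  have hone : ph l v.asIdeal = 1 := by
    have h1 : mu v (Ideal.span {β}) * ph l v.asIdeal = 1 := by omega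
    exact Nat.eq_one_of_mul_eq_one_left h1
  have hnorm := norm_of_ph hvl hone
  unfold N1
  have hfin : Finite {v : HeightOneSpectrum (𝓞 L) // Ideal.absNorm v.asIdeal = l} := by
    refine Set.Finite.subset (ab_finite (L := L) hl.ne_zero) ?_
    intro w hw
    have hw' : Ideal.absNorm w.asIdeal = l := hw
    change (l : 𝓞 L) ∈ w.asIdeal
    have := Ideal.absNorm_mem w.asIdeal
    rwa [hw'] at this
  exact Nat.one_le_iff_ne_zero.2 (Nat.card_ne_zero.2 ⟨⟨⟨v, hnorm⟩⟩, hfin⟩)

end Pool.Agent.Q299.ZC
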