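import Pool.Agent.Q51.ZC.Stm2
import Pool.Agent.Q210.SE.Val

/-! Project ZC (helper51): job ZEX (helper299). -/

set_option autoImplicit false

namespace Pool.Agent.Q299.ZC

open Polynomial NumberField IsDedekindDomain Finset
open Pool.Agent.Q51.ZC Pool.Agent.Q51.SE

theorem zex : S_ZEX := by
  intro f hf q m D hq hqm hD p _ z
  have hval : ∀ P : LPt f m D p, (∃ a, IsValue q P.pt a) ∧ ∀ a a', IsValue q P.pt a → IsValue q P.pt a' →
      ∃ g : (Alg f P.K)ˣ, a' = a * g ^ q := by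
    intro P
    haveI : CharZero P.K := charZero_of_injective_algebraMap (algebraMap ℚ_[p] P.K).injective
    exact Pool.Agent.Q210.SE.val f hf q m D hq hqm hD P.K P.pt
  induction z with
  | nil =>
    refine ⟨⟨1, rfl⟩, ?_⟩
    intro A A' hA hA'
    have h1 : A = 1 := hA
    have h2 : A' = 1 := hA'
    exact ⟨1, by rw [h1, h2, one_pow, one_mul]⟩
  | cons t z ih =>
    obtain ⟨⟨A2, hA2⟩, huniq⟩ := ih
    obtain ⟨⟨b, hb⟩, hbu⟩ := hval t.2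
    refine ⟨⟨(Units.map (nrm f ℚ_[p] t.2.K) b) ^ t.1 * A2, _, A2, ⟨b, hb, rfl⟩, hA2, rfl⟩, ?_⟩
    intro A A' hA hA'
    obtain ⟨B1, B2, ⟨c, hc, hc1⟩, hB2, hAB⟩ := hA
    obtain ⟨B1', B2', ⟨c', hc', hc1'⟩, hB2', hAB'⟩ := hA'
    obtain ⟨g, hg⟩ := hbu c c' hc hc'
    obtain ⟨h, hh⟩ := huniq B2 B2' hB2 hB2'
    refine ⟨(Units.map (nrm f ℚ_[p] t.2.K) g) ^ t.1 * h, ?_⟩
    rw [hAB', hAB, hh, hc1', hg, hc1, map_mul, map_pow, mul_zpow, mul_pow, ← zpow_natCast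
      ((Units.map (nrm f ℚ_[p] t.2.K)) g) q, ← zpow_natCast (((Units.map (nrm f ℚ_[p] t.2.K)) g) ^ t.1) q,
      ← zpow_mul, ← zpow_mul, mul_comm (q : ℤ) t.1]
    exact mul_mul_mul_comm _ _ _ _

end Pool.Agent.Q299.ZC
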